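import Mathlib

/-!
# MP_93e32b: a monic irreducible cubic with no quadratic substitution making it a sum of two
squares.

`p(x) = x^3 + 2 x^2 + 3 x + 8` has a root `α ≡ 0 mod 8` in `ℤ_[2]`; the local obstruction at `2`
comes from the factorisation `p = (x - α) g`.
-/

namespace Pool.Agent.Results.MP_93e32b_nt.NoSubstitution

open Polynomial

/-- the cubic `x^3 + 2 x^2 + 3 x + 8` -/
noncomputable def P : ℤ[X] := X ^ 3 + C 2 * X ^ 2 + C 3 * X + C 8

lemma P_natDegree : P.natDegree = 3 := by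
  unfold P; compute_degree!

lemma P_monic : P.Monic := by
  unfold P; monicity!

lemma no_int_root (m : ℤ) : m ^ 3 + 2 * m ^ 2 + 3 * m + 8 ≠ 0 := by
  intro h
  have hd : m ∣ 8 := ⟨-(m ^ 2 + 2 * m + 3), by linear_combination h⟩
  have h1 : m ≤ 8 := Int.le_of_dvd (by norm_num) hd
  have h2 : -m ≤ 8 := Int.le_of_dvd (by norm_num) (by rwa [neg_dvd])
  have h3 : -8 ≤ m := by omega
  interval_cases m <;> omega

lemma P_irreducible : Irreducible P := by
  rw [P_monic.irreducible_iff_roots_eq_zero_of_degree_le_three (by rw [P_natDegree]; norm_num)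
    (by rw [P_natDegree])]
  rw [Multiset.eq_zero_iff_forall_notMem]
  intro m hm
  rw [mem_roots P_monic.ne_zero, IsRoot.def] at hm
  apply no_int_root m
  simpa [P] using hm

/-! ## Sums of two squares in `ℚ_[2]` -/

lemma dvd_two_iff (x : ℤ_[2]) : (2 : ℤ_[2]) ∣ x ↔ PadicInt.toZMod x = 0 := by
  rw [← RingHom.mem_ker, PadicInt.ker_toZMod, PadicInt.maximalIdeal_eq_span_p,
    Ideal.mem_span_singleton]
  norm_num

lemma even_or_odd (r : ℤ_[2]) : (∃ s, r = 2 * s) ∨ (∃ s, r = 1 + 2 * s) := by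
  have h01 : PadicInt.toZMod r = 0 ∨ PadicInt.toZMod r = 1 := by
    generalize PadicInt.toZMod r = a
    revert a; decide
  rcases h01 with h | h
  · exact Or.inl ((dvd_two_iff r).2 h)
  · right
    obtain ⟨s, hs⟩ := (dvd_two_iff (r - 1)).2 (by rw [map_sub, h, map_one, sub_self])
    exact ⟨s, by linear_combination hs⟩

lemma two_ne : (2 : ℤ_[2]) ≠ 0 := by norm_num

lemma not_two_dvd_one (s : ℤ_[2]) : (1 : ℤ_[2]) ≠ 2 * s := by
  intro h
  have := (dvd_two_iff 1).1 ⟨s, h⟩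
  rw [map_one] at this
  exact absurd this (by decide)

lemma descent (k : ℕ) : ∀ a b w : ℤ_[2], a ^ 2 + b ^ 2 = 4 ^ k * (3 + 4 * w) → False := by
  induction k with
  | zero =>
    intro a b w h
    rw [pow_zero, one_mul] at h
    rcases even_or_odd a with ⟨s, rfl⟩ | ⟨s, rfl⟩ <;> rcases even_or_odd b with ⟨r, rfl⟩ | ⟨r, rfl⟩
    · exact not_two_dvd_one (2 * s ^ 2 + 2 * r ^ 2 - 2 * w - 1) (by linear_combination -h)
    · have h2 : (2 : ℤ_[2]) * (2 * s ^ 2 + 2 * r + 2 * r ^ 2 - 2 * w) = 2 * 1 := by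
        linear_combination h
      have h3 := mul_left_cancel₀ two_ne h2
      exact not_two_dvd_one (s ^ 2 + r + r ^ 2 - w) (by linear_combination -h3)
    · have h2 : (2 : ℤ_[2]) * (2 * r ^ 2 + 2 * s + 2 * s ^ 2 - 2 * w) = 2 * 1 := by
        linear_combination h
      have h3 := mul_left_cancel₀ two_ne h2
      exact not_two_dvd_one (r ^ 2 + s + s ^ 2 - w) (by linear_combination -h3)
    · exact not_two_dvd_one (2 * s + 2 * s ^ 2 + 2 * r + 2 * r ^ 2 - 2 * w) (by linear_combination -h)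
  | succ k ih =>
    intro a b w h
    rw [pow_succ] at h
    rcases even_or_odd a with ⟨s, rfl⟩ | ⟨s, rfl⟩ <;> rcases even_or_odd b with ⟨r, rfl⟩ | ⟨r, rfl⟩
    · apply ih s r w
      have h4 : (4 : ℤ_[2]) ≠ 0 := by norm_num
      apply mul_left_cancel₀ h4
      linear_combination h
    · exact not_two_dvd_one (-2 * s ^ 2 - 2 * r - 2 * r ^ 2 + 2 * (4 ^ k * (3 + 4 * w)))
        (by linear_combination h)
    · exact not_two_dvd_one (-2 * r ^ 2 - 2 * s - 2 * s ^ 2 + 2 * (4 ^ k * (3 + 4 * w)))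
        (by linear_combination h)
    · have h2 : (2 : ℤ_[2]) * (2 * (4 ^ k * (3 + 4 * w)) - 2 * s ^ 2 - 2 * s - 2 * r ^ 2 - 2 * r) =
          2 * 1 := by
        linear_combination -h
      have h3 := mul_left_cancel₀ two_ne h2
      exact not_two_dvd_one (4 ^ k * (3 + 4 * w) - s ^ 2 - s - r ^ 2 - r) (by linear_combination -h3)

/-- `z` is a sum of two squares in `ℚ_[2]`. -/
def IsN (z : ℚ_[2]) : Prop := ∃ a b : ℚ_[2], z = a ^ 2 + b ^ 2

lemma IsN.mul {z w : ℚ_[2]} (hz : IsN z) (hw : IsN w) : IsN (z * w) := by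
  obtain ⟨a, b, rfl⟩ := hz
  obtain ⟨c, d, rfl⟩ := hw
  exact ⟨a * c - b * d, a * d + b * c, by ring⟩

lemma IsN.sq_mul {z : ℚ_[2]} (c : ℚ_[2]) (hz : IsN z) : IsN (c ^ 2 * z) := by
  obtain ⟨a, b, rfl⟩ := hz
  exact ⟨c * a, c * b, by ring⟩

lemma IsN.of_mul {z w : ℚ_[2]} (hw : IsN w) (h0 : w ≠ 0) (hzw : IsN (z * w)) : IsN z := by
  have h1 := (hzw.mul hw).sq_mul (w⁻¹)
  have h2 : (w⁻¹) ^ 2 * (z * w * w) = z := by field_simp
  rwa [h2] at h1

lemma exists_scale (x : ℚ_[2]) : ∃ k : ℕ, ∀ j ≥ k, ∃ z : ℤ_[2], (2 : ℚ_[2]) ^ j * x = z := by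
  obtain ⟨k, hk⟩ := pow_unbounded_of_one_lt ‖x‖ (by norm_num : (1 : ℝ) < 2)
  refine ⟨k, fun j hj => ?_⟩
  have h2 : ‖(2 : ℚ_[2]) ^ j * x‖ ≤ 1 := by
    have h3 : ‖(2 : ℚ_[2])‖ = 2⁻¹ := by
      have := Padic.norm_p (p := 2)
      simpa using this
    rw [norm_mul, norm_pow, h3]
    have h4 : (2 : ℝ) ^ k ≤ 2 ^ j := pow_le_pow_right₀ (by norm_num) hj
    have h5 : (2 : ℝ)⁻¹ ^ j * ‖x‖ ≤ (2 : ℝ)⁻¹ ^ j * 2 ^ j :=
      mul_le_mul_of_nonneg_left (by linarith) (by positivity)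
    have h6 : (2 : ℝ)⁻¹ ^ j * 2 ^ j = 1 := by
      rw [← mul_pow]; norm_num
    linarith
  exact ⟨⟨_, h2⟩, rfl⟩

lemma not_isN (w : ℤ_[2]) : ¬ IsN ((3 + 4 * w : ℤ_[2]) : ℚ_[2]) := by
  rintro ⟨a, b, h⟩
  obtain ⟨k1, hk1⟩ := exists_scale a
  obtain ⟨k2, hk2⟩ := exists_scale b
  obtain ⟨z1, hz1⟩ := hk1 (max k1 k2) (le_max_left _ _)
  obtain ⟨z2, hz2⟩ := hk2 (max k1 k2) (le_max_right _ _)
  apply descent (max k1 k2) z1 z2 w
  apply Subtype.ext
  have h44 : ((4 : ℤ_[2]) : ℚ_[2]) = 4 := by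
    have := PadicInt.coe_natCast (p := 2) 4
    simpa using this
  rw [PadicInt.coe_add, PadicInt.coe_pow, PadicInt.coe_pow, ← hz1, ← hz2, PadicInt.coe_mul,
    PadicInt.coe_pow, h, h44]
  have h4 : (4 : ℚ_[2]) ^ (max k1 k2) = (2 ^ (max k1 k2)) ^ 2 := by
    rw [← pow_mul, mul_comm (max k1 k2) 2, pow_mul]; norm_num
  rw [h4]
  ring

lemma aniso {a b : ℚ_[2]} (h : a ^ 2 + b ^ 2 = 0) : a = 0 ∧ b = 0 := by
  have key : ∀ a b : ℚ_[2], a ^ 2 + b ^ 2 = 0 → b = 0 := by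
    intro a b h
    by_contra hb
    apply not_isN (-1)
    refine ⟨a / b, 0, ?_⟩
    have h1 : ((3 + 4 * (-1) : ℤ_[2]) : ℚ_[2]) = -1 := by
      have : (3 + 4 * (-1) : ℤ_[2]) = -1 := by norm_num
      rw [this]; simp
    rw [h1]
    field_simp
    linear_combination -h
  exact ⟨key b a (by rw [add_comm]; exact h), key a b h⟩

lemma isN_two : IsN 2 := ⟨1, 1, by norm_num⟩

/-! ## The root in `ℤ_[2]` -/

lemma aeval_P (z : ℤ_[2]) : (P.aeval z : ℤ_[2]) = z ^ 3 + 2 * z ^ 2 + 3 * z + 8 := by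
  simp only [P, map_add, map_mul, map_pow, aeval_C, aeval_X]
  simp

lemma aeval_dP (z : ℤ_[2]) : (P.derivative.aeval z : ℤ_[2]) = 3 * z ^ 2 + 4 * z + 3 := by
  simp only [P, derivative_add, derivative_mul, derivative_C, derivative_X_pow, derivative_X,
    map_add, map_mul, map_pow, aeval_C, aeval_X]
  simp
  ring

lemma exists_root : ∃ β : ℤ_[2], (8 * β) ^ 3 + 2 * (8 * β) ^ 2 + 3 * (8 * β) + 8 = 0 := by
  have h8 : ‖(P.aeval (0 : ℤ_[2]) : ℤ_[2])‖ < ‖(P.derivative.aeval (0 : ℤ_[2]) : ℤ_[2])‖ ^ 2 := by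
    have e1 : (P.aeval (0 : ℤ_[2]) : ℤ_[2]) = 8 := by
      rw [aeval_P]; ring
    have e2 : (P.derivative.aeval (0 : ℤ_[2]) : ℤ_[2]) = 3 := by
      rw [aeval_dP]; ring
    rw [e1, e2]
    have h3 : ‖(3 : ℤ_[2])‖ = 1 := by
      have h := PadicInt.norm_int_lt_one_iff_dvd (p := 2) 3
      have h1 : ‖(3 : ℤ_[2])‖ ≤ 1 := PadicInt.norm_le_one _
      rcases h1.lt_or_eq with h2 | h2
      · exfalso
        have := h.1 (by simpa using h2)
        norm_num at this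
      · exact h2
    have h4 : ‖(8 : ℤ_[2])‖ < 1 := by
      have h := (PadicInt.norm_int_lt_one_iff_dvd (p := 2) 8).2 (by norm_num)
      simpa using h
    rw [h3]; linarith
  obtain ⟨z, hz, hz2, -⟩ := hensels_lemma h8
  have hz0 : z ^ 3 + 2 * z ^ 2 + 3 * z + 8 = 0 := by
    rw [← aeval_P]; exact hz
  rcases even_or_odd z with ⟨s, rfl⟩ | ⟨s, rfl⟩
  · have h2 : (2 : ℤ_[2]) * (4 * s ^ 3 + 4 * s ^ 2 + 3 * s + 4) = 2 * 0 := by
      linear_combination hz0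
    have h3 := mul_left_cancel₀ two_ne h2
    rcases even_or_odd s with ⟨r, rfl⟩ | ⟨r, rfl⟩
    · have h4 : (2 : ℤ_[2]) * (16 * r ^ 3 + 8 * r ^ 2 + 3 * r + 2) = 2 * 0 := by
        linear_combination h3
      have h5 := mul_left_cancel₀ two_ne h4
      rcases even_or_odd r with ⟨q, rfl⟩ | ⟨q, rfl⟩
      · refine ⟨q, ?_⟩
        linear_combination hz0
      · exfalso
        exact not_two_dvd_one (-(8 * (1 + 2 * q) ^ 3 + 4 * (1 + 2 * q) ^ 2 + 3 * q + 2))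
          (by linear_combination h5)
    · exfalso
      exact not_two_dvd_one (-(2 * (1 + 2 * r) ^ 3 + 2 * (1 + 2 * r) ^ 2 + 3 * r + 3))
        (by linear_combination h3)
  · exfalso
    -- the root found by Hensel is congruent to `0`
    have e2 : (P.derivative.aeval (0 : ℤ_[2]) : ℤ_[2]) = 3 := by
      rw [aeval_dP]; ring
    rw [e2, sub_zero] at hz2
    have h3 : ‖(3 : ℤ_[2])‖ ≤ 1 := PadicInt.norm_le_one _
    have h4 : ‖1 + 2 * s‖ < 1 := lt_of_lt_of_le hz2 h3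
    have h5 : PadicInt.toZMod (1 + 2 * s) = 0 := by
      rw [← RingHom.mem_ker, PadicInt.ker_toZMod, IsLocalRing.mem_maximalIdeal, mem_nonunits_iff,
        PadicInt.isUnit_iff]
      exact ne_of_lt h4
    obtain ⟨r, hr⟩ := (dvd_two_iff _).2 h5
    exact not_two_dvd_one (r - s) (by linear_combination hr)

/-! ## The main argument -/

/-- if a quadratic `h` divides `q1^2 + q2^2` then it divides `q1` and `q2`, or minus its
discriminant is a square -/
lemma disc (a b c : ℚ_[2]) (ha : a ≠ 0) (h q1 q2 : ℚ_[2][X]) (hh : h = C a * X ^ 2 + C b * X + C c)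
    (hd : h ∣ q1 ^ 2 + q2 ^ 2) :
    (h ∣ q1 ∧ h ∣ q2) ∨ ∃ l : ℚ_[2], l ^ 2 = -(b ^ 2 - 4 * a * c) := by
  have hdeg : h.natDegree = 2 := by
    rw [hh]; compute_degree!
  have hh0 : h ≠ 0 := by
    rintro h'; rw [h', natDegree_zero] at hdeg; omega
  have hr : ∀ q : ℚ_[2][X], ∃ s t : ℚ_[2], ∃ k, q = h * k + C s * (C (2 * a) * X + C b) + C t := by
    intro q
    have h1 : (q % h).degree < h.degree := degree_mod_lt q hh0
    have h2 : (q % h).natDegree ≤ 1 := by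
      rcases eq_or_ne (q % h) 0 with h0 | h0
      · rw [h0, natDegree_zero]; norm_num
      · have := natDegree_lt_natDegree h0 h1
        omega
    obtain ⟨s, t, hst⟩ := exists_eq_X_add_C_of_natDegree_le_one h2
    refine ⟨s / (2 * a), t - s / (2 * a) * b, q / h, ?_⟩
    have h3 := EuclideanDomain.div_add_mod q h
    conv_lhs => rw [← h3, hst]
    have h4 : C s = C (s / (2 * a)) * C (2 * a) := by
      rw [← C_mul]; congr 1; field_simp
    rw [h4, C_sub, C_mul (a := s / (2 * a)) (b := b)]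
    ring
  obtain ⟨s1, t1, k1, hq1⟩ := hr q1
  obtain ⟨s2, t2, k2, hq2⟩ := hr q2
  have hy : (C (2 * a) * X + C b) ^ 2 = C (4 * a) * h + C (b ^ 2 - 4 * a * c) := by
    rw [hh]
    simp only [C_mul, C_sub, C_pow]
    have h44 : (C 4 : ℚ_[2][X]) = 4 := map_ofNat C 4
    have h22 : (C 2 : ℚ_[2][X]) = 2 := map_ofNat C 2
    rw [h44, h22]
    ring
  have hdvd : h ∣ C (2 * (s1 * t1 + s2 * t2)) * (C (2 * a) * X + C b) +
      C ((s1 ^ 2 + s2 ^ 2) * (b ^ 2 - 4 * a * c) + (t1 ^ 2 + t2 ^ 2)) := by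
    obtain ⟨e, he⟩ := hd
    rw [hq1, hq2] at he
    refine ⟨e - h * k1 ^ 2 - 2 * k1 * (C s1 * (C (2 * a) * X + C b) + C t1) - h * k2 ^ 2 -
      2 * k2 * (C s2 * (C (2 * a) * X + C b) + C t2) - C (s1 ^ 2 + s2 ^ 2) * C (4 * a), ?_⟩
    have h22 : (C 2 : ℚ_[2][X]) = 2 := map_ofNat C 2
    have h44 : (C 4 : ℚ_[2][X]) = 4 := map_ofNat C 4
    simp only [C_add, C_mul, C_sub, C_pow, h22, h44] at he hy ⊢
    linear_combination he - (C s1 ^ 2 + C s2 ^ 2) * hy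
  have hzero := eq_zero_of_dvd_of_natDegree_lt hdvd (by
    rw [hdeg]
    refine lt_of_le_of_lt ?_ (by norm_num : 1 < 2)
    compute_degree)
  have h1 : 2 * (s1 * t1 + s2 * t2) * (2 * a) = 0 := by
    have e0 := congrArg (eval 0) hzero
    have e1 := congrArg (eval 1) hzero
    simp only [eval_add, eval_mul, eval_C, eval_X, eval_zero] at e0 e1
    linear_combination e1 - e0
  have h2 : s1 * t1 + s2 * t2 = 0 := by
    have h3 : (2 : ℚ_[2]) ≠ 0 := by norm_num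
    have h4 : 2 * (2 * a) ≠ 0 := mul_ne_zero h3 (mul_ne_zero h3 ha)
    have : (2 * (2 * a)) * (s1 * t1 + s2 * t2) = 0 := by linear_combination h1
    exact (mul_eq_zero.1 this).resolve_left h4
  have h3 : (s1 ^ 2 + s2 ^ 2) * (b ^ 2 - 4 * a * c) + (t1 ^ 2 + t2 ^ 2) = 0 := by
    rw [h2, mul_zero, C_0, zero_mul, zero_add] at hzero
    exact C_eq_zero.1 hzero
  by_cases hs : s1 ^ 2 + s2 ^ 2 = 0
  · left
    rw [hs, zero_mul, zero_add] at h3
    obtain ⟨hs1, hs2⟩ := aniso hs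
    obtain ⟨ht1, ht2⟩ := aniso h3
    constructor
    · exact ⟨k1, by rw [hq1, hs1, ht1]; simp⟩
    · exact ⟨k2, by rw [hq2, hs2, ht2]; simp⟩
  · right
    refine ⟨(s1 * t2 - s2 * t1) / (s1 ^ 2 + s2 ^ 2), ?_⟩
    rw [div_pow, div_eq_iff (pow_ne_zero 2 hs)]
    linear_combination (s1 ^ 2 + s2 ^ 2) * h3 - (s1 * t1 + s2 * t2) * h2

/-- the leading coefficient of `q0` is a sum of two squares -/
lemma lead (q0 q1 q2 : ℚ_[2][X]) (hq0 : q0.natDegree = 2)
    (h : q0 ^ 3 + 2 * q0 ^ 2 + 3 * q0 + 8 = q1 ^ 2 + q2 ^ 2) : IsN (q0.coeff 2) := by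
  have ha : q0.coeff 2 ≠ 0 := by
    have := leadingCoeff_ne_zero.2 (show q0 ≠ 0 by
      rintro rfl; rw [natDegree_zero] at hq0; omega)
    rwa [leadingCoeff, hq0] at this
  -- the composition
  have hR : (X ^ 3 + C 2 * X ^ 2 + C 3 * X + C 8 : ℚ_[2][X]).comp q0 =
      q0 ^ 3 + 2 * q0 ^ 2 + 3 * q0 + 8 := by
    simp [map_ofNat C]
  have hdR : (X ^ 3 + C 2 * X ^ 2 + C 3 * X + C 8 : ℚ_[2][X]).natDegree = 3 := by compute_degree!
  have hmR : (X ^ 3 + C 2 * X ^ 2 + C 3 * X + C 8 : ℚ_[2][X]).Monic := by monicity!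
  have hdeg : (q1 ^ 2 + q2 ^ 2).natDegree = 6 := by
    rw [← h, ← hR, natDegree_comp, hdR, hq0]
  have hcoef : (q1 ^ 2 + q2 ^ 2).coeff 6 = (q0.coeff 2) ^ 3 := by
    have h1 : (q1 ^ 2 + q2 ^ 2).leadingCoeff = (q0.leadingCoeff) ^ 3 := by
      rw [← h, ← hR, leadingCoeff_comp, hmR.leadingCoeff, hdR, one_mul]
      rw [hq0]; norm_num
    rw [leadingCoeff, leadingCoeff, hdeg, hq0] at h1
    exact h1
  set d := max q1.natDegree q2.natDegree with hd
  have h2d : (q1 ^ 2 + q2 ^ 2).coeff (2 * d) = (q1.coeff d) ^ 2 + (q2.coeff d) ^ 2 := by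
    rw [coeff_add, coeff_pow_of_natDegree_le (le_max_left _ _),
      coeff_pow_of_natDegree_le (le_max_right _ _)]
  have hne : (q1.coeff d) ^ 2 + (q2.coeff d) ^ 2 ≠ 0 := by
    intro h0
    obtain ⟨h1, h2⟩ := aniso h0
    rcases max_choice q1.natDegree q2.natDegree with hm | hm
    · rw [hd, hm] at h1
      have hz : q1 = 0 := leadingCoeff_eq_zero.1 h1
      have : q2.natDegree ≤ 0 := by
        have := le_max_right q1.natDegree q2.natDegree
        rw [hm, hz, natDegree_zero] at this; exact this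
      rw [hz] at hdeg
      have h3 : (0 ^ 2 + q2 ^ 2 : ℚ_[2][X]).natDegree = 0 := by
        have : q2.natDegree = 0 := by omega
        simp [natDegree_pow, this]
      omega
    · rw [hd, hm] at h2
      have hz : q2 = 0 := leadingCoeff_eq_zero.1 h2
      have : q1.natDegree ≤ 0 := by
        have := le_max_left q1.natDegree q2.natDegree
        rw [hm, hz, natDegree_zero] at this; exact this
      rw [hz] at hdeg
      have h3 : (q1 ^ 2 + 0 ^ 2 : ℚ_[2][X]).natDegree = 0 := by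
        have : q1.natDegree = 0 := by omega
        simp [natDegree_pow, this]
      omega
  have hle : 2 * d ≤ 6 := by
    rw [← hdeg]
    apply le_natDegree_of_ne_zero
    rw [h2d]; exact hne
  have hge : 6 ≤ 2 * d := by
    rw [← hdeg]
    refine (natDegree_add_le _ _).trans (max_le ?_ ?_)
    · rw [natDegree_pow]; exact Nat.mul_le_mul_left _ (le_max_left _ _)
    · rw [natDegree_pow]; exact Nat.mul_le_mul_left _ (le_max_right _ _)
  have hd3 : 2 * d = 6 := le_antisymm hle hge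
  rw [hd3, hcoef] at h2d
  refine ⟨q1.coeff d / q0.coeff 2, q2.coeff d / q0.coeff 2, ?_⟩
  field_simp
  linear_combination h2d

lemma z2 : ((2 : ℤ_[2]) : ℚ_[2]) = 2 := rfl
lemma z3 : ((3 : ℤ_[2]) : ℚ_[2]) = 3 := rfl
lemma z4 : ((4 : ℤ_[2]) : ℚ_[2]) = 4 := rfl
lemma z8 : ((8 : ℤ_[2]) : ℚ_[2]) = 8 := rfl
lemma z16 : ((16 : ℤ_[2]) : ℚ_[2]) = 16 := rfl

lemma core (q0 q1 q2 : ℚ_[2][X]) (hq0 : q0.natDegree = 2) (m : ℤ) (hm : q0.eval 0 = m)
    (h : q0 ^ 3 + 2 * q0 ^ 2 + 3 * q0 + 8 = q1 ^ 2 + q2 ^ 2) : False := by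
  obtain ⟨β, hβ⟩ := exists_root
  have ha : q0.coeff 2 ≠ 0 := by
    have := leadingCoeff_ne_zero.2 (show q0 ≠ 0 by
      rintro rfl; rw [natDegree_zero] at hq0; omega)
    rwa [leadingCoeff, hq0] at this
  have hNa := lead q0 q1 q2 hq0 h
  have hquad : q0 = C (q0.coeff 2) * X ^ 2 + C (q0.coeff 1) * X + C (q0.coeff 0) :=
    eq_quadratic_of_degree_le_two (natDegree_le_iff_degree_le.1 hq0.le)
  have hc : q0.coeff 0 = m := by rw [← hm, coeff_zero_eq_eval_zero]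
  rw [hc] at hquad
  generalize q0.coeff 2 = a at *
  generalize q0.coeff 1 = b at *
  -- the root as a `2`-adic number
  set α : ℚ_[2] := 8 * (β : ℚ_[2]) with hα
  have hβ' : α ^ 3 + 2 * α ^ 2 + 3 * α + 8 = 0 := by
    have := congrArg (fun z : ℤ_[2] => (z : ℚ_[2])) hβ
    simpa [hα, z2, z3, z8] using this
  have hroot : ∀ n : ℤ, ((n : ℚ_[2]) - α) * ((n : ℚ_[2]) ^ 2 + (2 + α) * n + (3 + 2 * α + α ^ 2)) =
      (n : ℚ_[2]) ^ 3 + 2 * n ^ 2 + 3 * n + 8 := by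
    intro n
    linear_combination -hβ'
  have hpm : (m : ℚ_[2]) ^ 3 + 2 * m ^ 2 + 3 * m + 8 ≠ 0 := by
    have := no_int_root m
    exact_mod_cast this
  have hmα : (m : ℚ_[2]) - α ≠ 0 := by
    intro h0
    apply hpm
    rw [← hroot m, h0, zero_mul]
  -- `m - α` is a sum of two squares
  have hN1 : IsN ((m : ℚ_[2]) - α) := by
    set hh : ℚ_[2][X] := C a * X ^ 2 + C b * X + C (m - α) with hhdef
    have hhq : hh = q0 - C α := by
      rw [hhdef, hquad]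
      simp only [C_sub]
      ring
    have hfac : hh * (q0 ^ 2 + C (2 + α) * q0 + C (3 + 2 * α + α ^ 2)) = q1 ^ 2 + q2 ^ 2 := by
      rw [← h, hhq]
      have h3 := congrArg (C : ℚ_[2] →+* ℚ_[2][X]) hβ'
      have h22 : (C 2 : ℚ_[2][X]) = 2 := map_ofNat C 2
      have h33 : (C 3 : ℚ_[2][X]) = 3 := map_ofNat C 3
      have h88 : (C 8 : ℚ_[2][X]) = 8 := map_ofNat C 8
      simp only [C_add, C_mul, C_pow, h22, h33, h88, map_zero] at h3 ⊢
      linear_combination -h3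
    rcases disc a b (m - α) ha hh q1 q2 hhdef ⟨_, hfac.symm⟩ with ⟨⟨k1, hk1⟩, ⟨k2, hk2⟩⟩ | ⟨l, hl⟩
    · exfalso
      have hh0 : hh ≠ 0 := by
        intro h0
        have h1 : hh.natDegree = 2 := by rw [hhdef]; compute_degree!
        rw [h0, natDegree_zero] at h1
        omega
      have h1 : q0 ^ 2 + C (2 + α) * q0 + C (3 + 2 * α + α ^ 2) = hh * (k1 ^ 2 + k2 ^ 2) := by
        apply mul_left_cancel₀ hh0
        rw [hfac, hk1, hk2]
        ring
      have h2 : hh ∣ C (3 * α ^ 2 + 4 * α + 3) := by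
        refine ⟨k1 ^ 2 + k2 ^ 2 - q0 - C (2 + 2 * α), ?_⟩
        have h22 : (C 2 : ℚ_[2][X]) = 2 := map_ofNat C 2
        have h33 : (C 3 : ℚ_[2][X]) = 3 := map_ofNat C 3
        have h44 : (C 4 : ℚ_[2][X]) = 4 := map_ofNat C 4
        have h5 : hh * (k1 ^ 2 + k2 ^ 2 - q0 - C (2 + 2 * α)) =
          (q0 ^ 2 + C (2 + α) * q0 + C (3 + 2 * α + α ^ 2)) - (q0 - C α) * (q0 + C (2 + 2 * α)) := by
          rw [h1, hhq]; ring
        rw [h5]
        simp only [C_add, C_mul, C_pow, h22, h33, h44]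
        ring
      have h3 := eq_zero_of_dvd_of_natDegree_lt h2 (by
        rw [natDegree_C, hhdef]
        have : (C a * X ^ 2 + C b * X + C (m - α) : ℚ_[2][X]).natDegree = 2 := by compute_degree!
        omega)
      have h4 := C_eq_zero.1 h3
      have h5 : (3 * (8 * β) ^ 2 + 4 * (8 * β) + 3 : ℤ_[2]) = 0 := by
        apply Subtype.ext
        rw [PadicInt.coe_zero, ← h4, hα]
        push_cast
        rfl
      exact not_two_dvd_one (-1 - 16 * β - 96 * β ^ 2) (by linear_combination h5)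
    · have h4a : IsN (4 * a) := by
        have := (hNa.sq_mul 2)
        convert this using 1
        norm_num
      apply IsN.of_mul h4a (mul_ne_zero (by norm_num) ha)
      exact ⟨b, l, by linear_combination -hl⟩
  -- `g m` is a sum of two squares
  have hN2 : IsN ((m : ℚ_[2]) ^ 2 + (2 + α) * m + (3 + 2 * α + α ^ 2)) := by
    apply IsN.of_mul hN1 hmα
    rw [mul_comm, hroot m]
    refine ⟨q1.eval 0, q2.eval 0, ?_⟩
    have := congrArg (eval 0) h
    simpa [hm] using this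
  obtain ⟨j, hj⟩ : ∃ j : ℤ, m = 2 * j ∨ m = 4 * j + 1 ∨ m = 4 * j + 3 := by
    rcases Int.emod_two_eq_zero_or_one m with h2 | h2
    · exact ⟨m / 2, by omega⟩
    · exact ⟨m / 4, by omega⟩
  rcases hj with hj | hj | hj
  · -- `m` even
    apply not_isN ((j : ℤ_[2]) ^ 2 + j + 4 * β * j + 4 * β + 16 * β ^ 2)
    have e : ((3 + 4 * ((j : ℤ_[2]) ^ 2 + j + 4 * β * j + 4 * β + 16 * β ^ 2) : ℤ_[2]) : ℚ_[2]) =
        (m : ℚ_[2]) ^ 2 + (2 + α) * m + (3 + 2 * α + α ^ 2) := by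
      rw [hj, hα]
      push_cast
      rw [z3, z4, z16]
      ring
    rw [e]
    exact hN2
  · -- `m ≡ 1 mod 4`
    apply not_isN (2 * (j : ℤ_[2]) + 2 * j ^ 2 + 4 * β * j + 3 * β + 8 * β ^ 2)
    have e : ((3 + 4 * (2 * (j : ℤ_[2]) + 2 * j ^ 2 + 4 * β * j + 3 * β + 8 * β ^ 2) : ℤ_[2]) : ℚ_[2]) * 2 =
        (m : ℚ_[2]) ^ 2 + (2 + α) * m + (3 + 2 * α + α ^ 2) := by
      rw [hj, hα]
      push_cast
      rw [z3, z4, z8, z2]
      ring
    apply IsN.of_mul isN_two (by norm_num)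
    rw [e]
    exact hN2
  · -- `m ≡ 3 mod 4`
    apply not_isN ((j : ℤ_[2]) - 2 * β)
    have e : ((3 + 4 * ((j : ℤ_[2]) - 2 * β) : ℤ_[2]) : ℚ_[2]) = (m : ℚ_[2]) - α := by
      rw [hj, hα]
      push_cast
      rw [z3, z4, z2]
      ring
    rw [e]
    exact hN1

/-- There is an irreducible monic cubic `p ∈ ℤ[x]` such that for no integer-valued quadratic
polynomial `q0 ∈ ℚ[x]` is `p(q0(x))` a sum of two squares in `ℚ[x]`. -/
theorem result : ∃ p : ℤ[X], p.Monic ∧ p.natDegree = 3 ∧ Irreducible p ∧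
    ∀ q0 : ℚ[X], q0.natDegree = 2 → (∀ n : ℤ, ∃ m : ℤ, q0.eval (n : ℚ) = m) →
      ¬ ∃ q1 q2 : ℚ[X], (p.map (Int.castRingHom ℚ)).comp q0 = q1 ^ 2 + q2 ^ 2 := by
  refine ⟨P, P_monic, P_natDegree, P_irreducible, ?_⟩
  rintro q0 hq0 hint ⟨q1, q2, h⟩
  obtain ⟨m, hm⟩ := hint 0
  have hinj : Function.Injective (Rat.castHom ℚ_[2]) := (Rat.castHom ℚ_[2]).injective
  apply core (q0.map (Rat.castHom ℚ_[2])) (q1.map (Rat.castHom ℚ_[2])) (q2.map (Rat.castHom ℚ_[2]))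
    ?_ m ?_ ?_
  · rw [natDegree_map_eq_of_injective hinj, hq0]
  · have h1 := eval_map (Rat.castHom ℚ_[2]) (p := q0) (0 : ℚ_[2])
    have h2 : eval₂ (Rat.castHom ℚ_[2]) (0 : ℚ_[2]) q0 = Rat.castHom ℚ_[2] (q0.eval 0) := by
      rw [← Polynomial.eval₂_at_apply, map_zero]
    rw [h1, h2]
    simp only [Int.cast_zero] at hm
    rw [hm]
    simp
  · have h1 : (P.map (Int.castRingHom ℚ)).comp q0 = q0 ^ 3 + 2 * q0 ^ 2 + 3 * q0 + 8 := by
      simp [P]
    rw [h1] at h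
    have h2 := congrArg (Polynomial.map (Rat.castHom ℚ_[2])) h
    simpa using h2

end Pool.Agent.Results.MP_93e32b_nt.NoSubstitution
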